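import Pool.Agent.T9h55.ZD.Low
import Pool.Agent.T9h86.MZ.Lin
import Pool.Agent.Results.MP_56e040_nt.RelationsOneLargeArgument
import Pool.Agent.Results.MP_2000e9_nt.PatternsOfOneWeight

/-!
# Multiple zeta values of one weight: the two properties which fail for few weights (tuples) only

(1) the multiple zeta values of different patterns of one weight at a tuple are linearly independent (no relation of small
height), (2) the relations of small height between the multiple zeta values of weight `k` with an argument at least `k - W`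
span a space of dimension `∑_{n ≤ W} 2 ^ (W - n) (a_n - dim Z_n)`. Both are starting results (pages MP_2000e9_nt and
MP_56e040_nt); here they are brought into the form of properties which are monotone in the height.
-/

set_option autoImplicit false

namespace Pool.Agent.T9h55.ZD

open Finset
open Pool.Agent.X90.DE (relS na)
open Pool.Agent.X90.DD (WS)
open Pool.Agent.T9h86.MZ (FewAll)
open Pool.Agent.Results.MP_56e040_nt.RelationsOneLargeArgument
  (relationSpace weightSpace numIndices zagier relationSpace_eq num_eq finrank_weightSpace eq_of_sums)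
open Pool.Agent.Results.MP_2000e9_nt
open Pool.Agent.Results.MP_2000e9_nt.PatternsOfOneWeight
  (mzv Letter index AdmissiblePattern constantPart exceptional)

/-- different admissible patterns of the same weight at every tuple; initial segments of the same weight of the constant parts
are equal -/
def OneWeight {k r : ℕ} (w : Fin r → List (Letter k)) : Prop :=
  (∀ i, AdmissiblePattern (w i)) ∧ Function.Injective w ∧
    (∀ i j (s : Fin k → ℕ), (index s (w i)).sum = (index s (w j)).sum) ∧
    ∀ i j q q', q <+: constantPart (w i) → q' <+: constantPart (w j) → q.sum = q'.sum → q = q'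

/-- the multiple zeta values of the patterns at the tuple `s` satisfy a nontrivial linear relation with integer coefficients
of absolute value at most `H` -/
def Related {k r : ℕ} (w : Fin r → List (Letter k)) (H : ℝ) (s : Fin k → ℕ) : Prop :=
  ∃ c : Fin r → ℤ, c ≠ 0 ∧ (∀ i, |(c i : ℝ)| ≤ H) ∧ ∑ i, (c i : ℝ) * mzv (index s (w i)) = 0

theorem related_mono {k r : ℕ} (w : Fin r → List (Letter k)) (H H' : ℝ) (s : Fin k → ℕ) (h : H ≤ H')
    (hs : Related w H s) : Related w H' s := by
  obtain ⟨c, h1, h2, h3⟩ := hs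
  exact ⟨c, h1, fun i => (h2 i).trans h, h3⟩

theorem related_few {k r : ℕ} (w : Fin r → List (Letter k)) (hw : OneWeight w) : FewAll (Related w) := by
  intro κ
  obtain ⟨K, hK⟩ := PatternsOfOneWeight.result w hw.1 hw.2.1 hw.2.2.1 hw.2.2.2 κ
  exact ⟨K, hK⟩

/-- the dimension of the space of the multiple zeta values of weight `n` -/
noncomputable def dimZ (n : ℕ) : ℕ := Module.finrank ℚ (weightSpace n)

/-- the relations with integer coefficients at most `H` between the multiple zeta values of weight `k` with an argument at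
least `k - W` span a space of dimension `∑_{n ≤ W} 2 ^ (W - n) (a_n - f n)`, `a_n` the number of admissible indices -/
def HasDim (f : ℕ → ℕ) (W k : ℕ) (H : ℝ) : Prop :=
  Module.finrank ℚ (relationSpace W k H) + ∑ n ∈ Finset.range (W + 1), 2 ^ (W - n) * f n =
    ∑ n ∈ Finset.range (W + 1), 2 ^ (W - n) * numIndices n

/-- the space of relations in the weight `s` is too large, or `s ≤ J` -/
def BadW (W J : ℕ) (H : ℝ) (s : Fin 1 → ℕ) : Prop := Over W (s 0) H ∨ s 0 ≤ J

theorem badW_mono (W J : ℕ) (H H' : ℝ) (s : Fin 1 → ℕ) (h : H ≤ H') (hs : BadW W J H s) : BadW W J H' s := by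
  rcases hs with h1 | h1
  · exact Or.inl (over_mono W (s 0) h h1)
  · exact Or.inr h1

theorem badW_few (W J : ℕ) : FewAll (BadW W J) := by
  classical
  intro κ
  obtain ⟨K, hK⟩ := over_few W κ
  refine ⟨K, fun C => ?_⟩
  obtain ⟨N0, hN0⟩ := hK C
  refine ⟨N0 + J + 1, fun N hN => ?_⟩
  rw [Nat.sub_self, pow_zero, mul_one]
  have hfin : {s : ℕ | (N ≤ s ∧ s ≤ κ * N) ∧ Over W s (C ^ N)}.Finite :=
    (Set.finite_Icc N (κ * N)).subset fun s hs => hs.1
  have h1 := hN0 N (by omega) hfin.toFinset fun s hs => by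
    rw [Set.Finite.mem_toFinset] at hs
    exact hs
  rw [← Set.ncard_eq_toFinset_card _ hfin] at h1
  refine le_trans ?_ h1
  refine Set.ncard_le_ncard_of_injOn (fun s : Fin 1 → ℕ => s 0) (fun s hs => ?_) ?_ hfin
  · obtain ⟨h2, h3⟩ := hs
    refine ⟨h2 0, ?_⟩
    rcases h3 with h3 | h3
    · exact h3
    · have := (h2 0).1
      omega
  · intro s _ s' _ hss
    funext j
    rw [Fin.fin_one_eq_zero j]
    exact hss

/-- the right dimension in the weights which are not bad -/
theorem hasDim (W : ℕ) {C : ℝ} (hC : 1 < C) : ∃ J : ℕ, ∀ k : ℕ, ¬ BadW W J (C ^ k) (fun _ => k) →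
    HasDim dimZ W k (C ^ k) := by
  obtain ⟨H0, k0, h⟩ := lower W
  obtain ⟨N1, hN1⟩ : ∃ N1 : ℕ, ∀ k, N1 ≤ k → H0 ≤ C ^ k := by
    have h1 := (tendsto_pow_atTop_atTop_of_one_lt hC).eventually_ge_atTop H0
    rw [Filter.eventually_atTop] at h1
    exact h1
  refine ⟨k0 + N1, fun k hk => ?_⟩
  have h1 : ¬ Over W k (C ^ k) := fun h => hk (Or.inl h)
  have h2 : ¬ k ≤ k0 + N1 := fun h => hk (Or.inr h)
  have h3 := h k (by omega) (C ^ k) (hN1 k (by omega))
  unfold Over at h1
  rw [not_lt] at h1
  unfold HasDim dimZ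
  rw [relationSpace_eq]
  simp only [num_eq, finrank_weightSpace]
  exact le_antisymm h1 h3

/-- one common weight for every `W` determines the dimensions -/
theorem zagier_of (h : ∀ W, ∃ (k : ℕ) (H : ℝ), HasDim dimZ W k H ∧ HasDim zagier W k H) (n : ℕ) :
    dimZ n = zagier n := by
  refine eq_of_sums _ _ (fun W => ?_) n
  obtain ⟨k, H, h1, h2⟩ := h W
  exact Nat.add_left_cancel (h1.trans h2.symm)

theorem hasDim_congr (h : ∀ n, dimZ n = zagier n) (W k : ℕ) (H : ℝ) : HasDim dimZ W k H ↔ HasDim zagier W k H := by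
  unfold HasDim
  simp only [h]

/-- the count of the weights with a property which is monotone in the height -/
theorem count_one {E : ℝ → (Fin 1 → ℕ) → Prop} (hmono : ∀ H H' s, H ≤ H' → E H s → E H' s) (hfew : FewAll E)
    (C : ℝ) (ε : ℝ) (hε : 0 < ε) : ∃ C₀ : ℝ, 0 ≤ C₀ ∧ ∀ X : ℕ, 1 ≤ X →
      ({t : ℕ | 1 ≤ t ∧ t ≤ X ∧ E (C ^ t) (fun _ => t)}.ncard : ℝ) ≤ C₀ * (X : ℝ) ^ ε := by
  obtain ⟨C₀, hC₀, h⟩ := Pool.Agent.T9h86.MZ.count_powers le_rfl hmono hfew 1 C ε hε
  refine ⟨C₀, hC₀, fun X hX => ?_⟩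
  have h1 := h X hX
  have e : ((1 : ℕ) : ℝ) - 1 + ε = ε := by
    push_cast
    ring
  rw [e] at h1
  refine le_trans (Nat.cast_le.2 ?_) h1
  refine Set.ncard_le_ncard_of_injOn (fun t : ℕ => (fun _ : Fin 1 => t)) (fun t ht => ?_) ?_ ?_
  · obtain ⟨h2, h3, h4⟩ := ht
    exact ⟨⟨t, h2, fun _ => ⟨le_rfl, (one_mul _).symm.le⟩, h4⟩, fun _ => h3⟩
  · intro s _ s' _ hss
    exact congrFun hss 0
  · refine (Set.Finite.pi' (t := fun _ : Fin 1 => Set.Iic X) fun _ => Set.finite_Iic _).subset ?_
    intro s hs j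
    exact hs.2 j

end Pool.Agent.T9h55.ZD
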