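import Pool.Agent.T9h55.ZD.Base
import Pool.Agent.N628.CMT.Gen

/-!
# The weights near the multiples of Carmichael's function
-/

set_option autoImplicit false

namespace Pool.Agent.T9h55.ZD

open Finset
open Pool.Agent.N790.CM (FewTimes Carries fewTimes_pred carries_carmichael)
open Pool.Agent.N628.CMT (NearMultiple powers)
open Pool.Agent.Results.MP_56e040_nt.RelationsOneLargeArgument (zagier)

/-- For all `F` which take each positive value at most `T` times at the primes and all `U`, for all large `N` and all but at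
most `N / (log N)^U` of the integers `m` in `[1, N]`: for ALL `v` with `1 ≤ v ≤ N^B` and `F p ∣ v` for all primes
`p > exp (√(log N))` which divide `m` exactly once, for ALL natural numbers `s = a v + b ≥ 1` with integers `a ≠ 0`,
`|a|, |b| ≤ v^η`: `P s`. -/
def AtMultiples (B η : ℝ) (P : ℕ → Prop) : Prop :=
  ∀ (T : ℕ) (F : ℕ → ℕ), FewTimes F T → ∀ U : ℕ, ∃ N₀ : ℕ, ∀ N : ℕ, N₀ ≤ N →
    ({m : ℕ | (1 ≤ m ∧ m ≤ N) ∧ ¬ ∀ v : ℕ, 1 ≤ v → (v : ℝ) ≤ (N : ℝ) ^ B →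
      Carries F (Real.exp √(Real.log N)) m v → ∀ (s : ℕ) (a b : ℤ), 1 ≤ s → a ≠ 0 → |(a : ℝ)| ≤ (v : ℝ) ^ η →
        |(b : ℝ)| ≤ (v : ℝ) ^ η → (s : ℤ) = a * v + b → P s}.ncard : ℝ) ≤ (N : ℝ) / Real.log N ^ U

theorem multiples {B : ℝ} (hB : 1 ≤ B) : ∃ η : ℝ, 0 < η ∧ ∀ (W : ℕ) (C : ℝ), 1 < C →
    AtMultiples B η (fun s => HasDim dimZ W s (C ^ s)) := by
  obtain ⟨η, hη, h⟩ := powers (k := 1) le_rfl hB (by push_cast; linarith)
  refine ⟨η, hη, fun W C hC T F hF U => ?_⟩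
  obtain ⟨J, hJ⟩ := hasDim W hC
  obtain ⟨N₀, hN₀⟩ := h (BadW W J) (fun H H' s => badW_mono W J H H' s) (badW_few W J) 1 C T (fun _ => F)
    (fun _ => hF) U
  refine ⟨N₀, fun N hN => ?_⟩
  have h1 := hN₀ N hN
  rw [pow_one] at h1
  refine le_trans (Nat.cast_le.2 ?_) h1
  refine Set.ncard_le_ncard_of_injOn (fun m : ℕ => (fun _ : Fin 1 => m)) (fun m hm => ?_) ?_ ?_
  · obtain ⟨h2, h3⟩ := hm
    refine ⟨fun _ => h2, fun h4 => h3 fun v hv hvB hc s a b hs ha haB hbB hsab => hJ s ?_⟩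
    refine h4 (fun _ => v) (fun _ => ⟨hv, hvB, hc⟩) (fun _ => s) s hs (fun _ => ⟨le_rfl, (one_mul _).symm.le⟩) ?_
    exact ⟨fun _ => a, fun _ => b, 0, fun _ => ⟨ha, haB, hbB⟩, fun _ => hsab⟩
  · intro s _ s' _ hss
    exact congrFun hss 0
  · refine (Set.Finite.pi' (t := fun _ : Fin 1 => Set.Iic N) fun _ => Set.finite_Iic _).subset ?_
    intro s hs j
    exact (hs.1 j).2

/-- the equivalence -/
theorem multiples_iff {B η : ℝ} (hB : 1 ≤ B) (hη : 0 < η) (h : ∀ (W : ℕ) (C : ℝ), 1 < C →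
    AtMultiples B η (fun s => HasDim dimZ W s (C ^ s))) :
    (∀ m, dimZ m = zagier m) ↔ ∀ (W : ℕ) (C : ℝ), 1 < C → AtMultiples B η (fun s => HasDim zagier W s (C ^ s)) := by
  constructor
  · intro hz W C hC
    have h1 := h W C hC
    simp only [hasDim_congr hz] at h1
    exact h1
  · intro hz
    refine zagier_of fun W => ?_
    obtain ⟨N₁, h1⟩ := h W 2 one_lt_two 1 _ fewTimes_pred 1
    obtain ⟨N₂, h2⟩ := hz W 2 one_lt_two 1 _ fewTimes_pred 1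
    obtain ⟨N₃, hN₃⟩ : ∃ N₃ : ℕ, ∀ N : ℕ, N₃ ≤ N → (3 : ℝ) ≤ Real.log N :=
      Filter.eventually_atTop.1 ((Real.tendsto_log_atTop.eventually_ge_atTop 3).natCast_atTop)
    obtain ⟨N, hN⟩ : ∃ N, N = N₁ + N₂ + N₃ + 1 := ⟨_, rfl⟩
    have h3 := h1 N (by omega)
    have h4 := h2 N (by omega)
    have h5 := hN₃ N (by omega)
    have hNpos : (0 : ℝ) < N := by exact_mod_cast (by omega : 0 < N)
    rw [pow_one] at h3 h4
    have h6 : (N : ℝ) / Real.log N ≤ N / 3 := div_le_div_of_nonneg_left hNpos.le (by norm_num) h5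
    obtain ⟨S₁, hS₁⟩ : ∃ S₁ : Set ℕ, S₁ = {m : ℕ | (1 ≤ m ∧ m ≤ N) ∧ ¬ ∀ v : ℕ, 1 ≤ v → (v : ℝ) ≤ (N : ℝ) ^ B →
      Carries (fun p => p - 1) (Real.exp √(Real.log N)) m v → ∀ (s : ℕ) (a b : ℤ), 1 ≤ s → a ≠ 0 →
        |(a : ℝ)| ≤ (v : ℝ) ^ η → |(b : ℝ)| ≤ (v : ℝ) ^ η → (s : ℤ) = a * v + b → HasDim dimZ W s (2 ^ s)} := ⟨_, rfl⟩
    obtain ⟨S₂, hS₂⟩ : ∃ S₂ : Set ℕ, S₂ = {m : ℕ | (1 ≤ m ∧ m ≤ N) ∧ ¬ ∀ v : ℕ, 1 ≤ v → (v : ℝ) ≤ (N : ℝ) ^ B →
      Carries (fun p => p - 1) (Real.exp √(Real.log N)) m v → ∀ (s : ℕ) (a b : ℤ), 1 ≤ s → a ≠ 0 →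
        |(a : ℝ)| ≤ (v : ℝ) ^ η → |(b : ℝ)| ≤ (v : ℝ) ^ η → (s : ℤ) = a * v + b → HasDim zagier W s (2 ^ s)} := ⟨_, rfl⟩
    rw [← hS₁] at h3
    rw [← hS₂] at h4
    obtain ⟨m, hm1, hm2, hm3, hm4⟩ : ∃ m : ℕ, 1 ≤ m ∧ m ≤ N ∧ m ∉ S₁ ∧ m ∉ S₂ := by
      by_contra hcon
      push Not at hcon
      have hsub : Set.Icc 1 N ⊆ S₁ ∪ S₂ := by
        rintro m ⟨g1, g2⟩
        by_cases g3 : m ∈ S₁
        · exact Or.inl g3
        · exact Or.inr (hcon m g1 g2 g3)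
      have hf1 : S₁.Finite := (Set.finite_Iic N).subset fun m hm => by
        rw [hS₁] at hm
        exact hm.1.2
      have hf2 : S₂.Finite := (Set.finite_Iic N).subset fun m hm => by
        rw [hS₂] at hm
        exact hm.1.2
      have h7 := (Set.ncard_le_ncard hsub (hf1.union hf2)).trans (Set.ncard_union_le S₁ S₂)
      rw [← Finset.coe_Icc, Set.ncard_coe_finset, Nat.card_Icc, Nat.add_sub_cancel] at h7
      have h8 : (N : ℝ) ≤ (S₁.ncard : ℝ) + S₂.ncard := by exact_mod_cast h7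
      linarith
    -- the value of Carmichael's function
    obtain ⟨v, hv⟩ : ∃ v, v = ArithmeticFunction.carmichael m := ⟨_, rfl⟩
    have hv1 : 1 ≤ v := by
      rw [hv]
      exact Nat.pos_of_dvd_of_pos (ArithmeticFunction.carmichael_dvd_totient m) (Nat.totient_pos.2 (by omega))
    have hvN : (v : ℝ) ≤ (N : ℝ) ^ B := by
      have g1 : v ≤ m := by
        rw [hv]
        exact (Nat.le_of_dvd (Nat.totient_pos.2 (by omega)) (ArithmeticFunction.carmichael_dvd_totient m)).trans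
          (Nat.totient_le m)
      have g2 : (v : ℝ) ≤ N := by exact_mod_cast g1.trans hm2
      have g3 : (1 : ℝ) ≤ N := by exact_mod_cast (by omega : 1 ≤ N)
      calc (v : ℝ) ≤ N := g2
        _ = (N : ℝ) ^ (1 : ℝ) := (Real.rpow_one _).symm
        _ ≤ (N : ℝ) ^ B := Real.rpow_le_rpow_of_exponent_le g3 hB
    have hc : Carries (fun p => p - 1) (Real.exp √(Real.log N)) m v := carries_carmichael _ m v (by rw [hv])
    have hv1' : (1 : ℝ) ≤ v := by exact_mod_cast hv1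
    have g4 : (1 : ℝ) ≤ (v : ℝ) ^ η := Real.one_le_rpow hv1' hη.le
    refine ⟨v, 2 ^ v, ?_, ?_⟩
    · by_contra hcon
      apply hm3
      rw [hS₁]
      refine ⟨⟨hm1, hm2⟩, fun g => hcon (g v hv1 hvN hc v 1 0 hv1 one_ne_zero ?_ ?_ ?_)⟩
      · simpa using g4
      · simp only [Int.cast_zero, abs_zero]
        linarith
      · ring
    · by_contra hcon
      apply hm4
      rw [hS₂]
      refine ⟨⟨hm1, hm2⟩, fun g => hcon (g v hv1 hvN hc v 1 0 hv1 one_ne_zero ?_ ?_ ?_)⟩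
      · simpa using g4
      · simp only [Int.cast_zero, abs_zero]
        linarith
      · ring

end Pool.Agent.T9h55.ZD
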