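import Pool.Agent.T9h55.ZD.Base
import Pool.Agent.N251.LF.Tuples

/-!
# The weights near the values of generic linear forms
-/

set_option autoImplicit false

namespace Pool.Agent.T9h55.ZD

open MeasureTheory
open Pool.Agent.N251.LF (Fam null_of_dim)
open Pool.Agent.T9h86.MZ (NoneNear FewAll lin_many null_set)
open Pool.Agent.Results.MP_56e040_nt.RelationsOneLargeArgument (zagier)

/-- the integers `s ≥ 1` within `c ‖v‖ ^ θ` of `∑ α_j v_j` -/
def Close {n : ℕ} (θ c : ℝ) (α v : Fin n → ℝ) (s : ℕ) : Prop :=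
  1 ≤ s ∧ |(s : ℝ) - ∑ j, α j * v j| ≤ c * ‖v‖ ^ θ

lemma row_isometry (n : ℕ) : Isometry (fun (β : Fin n → ℝ) (p : Fin 1 × Fin n) => β p.2) := by
  refine Isometry.of_dist_eq fun β γ => ?_
  refine le_antisymm ?_ ?_
  · rw [dist_pi_le_iff dist_nonneg]
    exact fun p => dist_le_pi_dist β γ p.2
  · rw [dist_pi_le_iff dist_nonneg]
    exact fun j => dist_le_pi_dist (fun p : Fin 1 × Fin n => β p.2) (fun p => γ p.2) (0, j)

/-- one small set of coefficient vectors for all `W` -/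
theorem weights {n : ℕ} {ι : Type} (v : ι → Fin n → ℝ) {τ θ : ℝ} (hv : Fam v τ) (hτ : 0 ≤ τ) (hθ : θ < 1) :
    ∃ E₀ : Set (Fin n → ℝ), dimH E₀ ≤ ENNReal.ofReal ((n : ℝ) - 1 + τ / (1 - θ)) ∧
      (1 ≤ n → τ + θ < 1 → volume E₀ = 0) ∧
      ∀ α, α ∉ E₀ → ∀ (W : ℕ) (C c : ℝ), 1 < C → {a | ∃ s, Close θ c α (v a) s ∧ ¬ HasDim dimZ W s (C ^ s)}.Finite := by
  obtain ⟨E, h1, h2⟩ := lin_many (k := 1) (I := ℕ × ℕ) le_rfl (E := fun i => BadW i.1 i.2)
    (fun i H H' s => badW_mono i.1 i.2 H H' s) (fun i => badW_few i.1 i.2) v hv hτ hθ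
  have hdim : dimH {β : Fin n → ℝ | (fun p : Fin 1 × Fin n => β p.2) ∈ E} ≤
      ENNReal.ofReal ((n : ℝ) - 1 + τ / (1 - θ)) := by
    have h3 : dimH {β : Fin n → ℝ | (fun p : Fin 1 × Fin n => β p.2) ∈ E} ≤ dimH E := by
      rw [← (row_isometry n).dimH_image]
      refine dimH_mono ?_
      rintro _ ⟨β, hβ, rfl⟩
      exact hβ
    refine h3.trans (h1.trans (ENNReal.ofReal_le_ofReal (le_of_eq ?_)))
    push_cast
    ring
  refine ⟨{β | (fun p : Fin 1 × Fin n => β p.2) ∈ E}, hdim, fun hn hlt => ?_, fun α hα W C c hC => ?_⟩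
  · refine null_of_dim hdim ?_ ?_
    · rw [Fintype.card_fin]
      have : τ / (1 - θ) < 1 := by
        rw [div_lt_iff₀ (by linarith)]
        linarith
      linarith
    · rw [Fintype.card_fin]
      omega
  · obtain ⟨J, hJ⟩ := hasDim W hC
    have h3 := h2 _ hα (W, J) 1 C c
    refine h3.subset ?_
    rintro a ⟨s, ⟨hs1, hs2⟩, hs3⟩
    refine ⟨fun _ => s, s, hs1, fun _ => ⟨le_rfl, (one_mul _).symm.le⟩, fun l => ?_, ?_⟩
    · exact hs2
    · by_contra h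
      exact hs3 (hJ s h)

/-- the equivalence -/
theorem lin_iff {n : ℕ} {ι : Type} (v : ι → Fin n → ℝ) {θ : ℝ} (α : Fin n → ℝ)
    (h : ∀ (W : ℕ) (C c : ℝ), 1 < C → {a | ∃ s, Close θ c α (v a) s ∧ ¬ HasDim dimZ W s (C ^ s)}.Finite) (c : ℝ)
    (hinf : {a | ∃ s, Close θ c α (v a) s}.Infinite) :
    (∀ m, dimZ m = zagier m) ↔
      ∀ (W : ℕ) (C : ℝ), 1 < C → {a | ∃ s, Close θ c α (v a) s ∧ ¬ HasDim zagier W s (C ^ s)}.Finite := by
  constructor
  · intro hz W C hC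
    have h1 := h W C c hC
    simp only [hasDim_congr hz] at h1
    exact h1
  · intro hz
    refine zagier_of fun W => ?_
    have h1 := h W 2 c one_lt_two
    have h2 := hz W 2 one_lt_two
    obtain ⟨a, ha, hna⟩ := (hinf.diff (h1.union h2)).nonempty
    obtain ⟨s, hs⟩ := ha
    rw [Set.mem_union, not_or] at hna
    refine ⟨s, 2 ^ s, ?_, ?_⟩
    · by_contra hcon
      exact hna.1 ⟨s, hs, hcon⟩
    · by_contra hcon
      exact hna.2 ⟨s, hs, hcon⟩

end Pool.Agent.T9h55.ZD
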