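import Pool.Agent.X90.DE.Main

/-!
# The relations between multiple zeta values with one large argument which hold for all large weights

The theorem `main` of `Pool.Agent.X90.DE` (starting library) gives the dimension of the space of relations of height at most
`C ^ k` for almost all weights `k`. Here the lower bound is separated: it holds for all large weights `k` and all large `H`.
-/

set_option autoImplicit false

namespace Pool.Agent.T9h55.ZD

open Finset
open Pool.Agent.Y760.ZG (mz)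
open Pool.Agent.Y760.ZF (sti)
open Pool.Agent.X90.DB (Ad ix ex ex_nil ex_ne)
open Pool.Agent.X90.DC
open Pool.Agent.X90.DD
open Pool.Agent.X90.DE

lemma relS_mono (W k : ℕ) {H H' : ℝ} (h : H ≤ H') : relS W k H ≤ relS W k H' := by
  rw [relS, relS]
  refine Submodule.span_mono ?_
  rintro c ⟨h1, h2, h3⟩
  refine ⟨h1, fun w => ?_, h3⟩
  obtain ⟨z, h4, h5⟩ := h2 w
  exact ⟨z, h4, h5.trans h⟩

/-- the relations span a finite-dimensional space -/
theorem relS_finite (W k : ℕ) (B : ℝ) : Module.Finite ℚ (relS W k B) := by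
  classical
  set S : Submodule ℚ (List ℕ →₀ ℚ) := Submodule.span ℚ ((fun w => Finsupp.single w (1 : ℚ)) ''
    ((ad k : Finset (List ℕ)) : Set (List ℕ))) with hS
  have h1 : Module.Finite ℚ S := by
    rw [hS]
    exact Module.Finite.span_of_finite ℚ (Set.Finite.image _ (Finset.finite_toSet _))
  have h2 : relS W k B ≤ S := by
    rw [relS, Submodule.span_le]
    rintro c ⟨hc, -, -⟩
    rw [SetLike.mem_coe, ← Finsupp.sum_single c, Finsupp.sum]
    refine Submodule.sum_mem _ fun w hw => ?_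
    have h3 : Finsupp.single w (c w) = c w • Finsupp.single w (1 : ℚ) := by
      rw [Finsupp.smul_single, smul_eq_mul, mul_one]
    rw [h3]
    refine Submodule.smul_mem _ _ (Submodule.subset_span ⟨w, ?_, rfl⟩)
    obtain ⟨g1, g2, -⟩ := hc w hw
    exact Finset.mem_coe.2 (mem_ad.2 ⟨g1, g2⟩)
  exact Submodule.finiteDimensional_of_le h2

/-- **the relations which hold for all large weights** -/
theorem lower (W : ℕ) : ∃ H0 : ℝ, ∃ k0 : ℕ, ∀ k : ℕ, k0 ≤ k → ∀ H : ℝ, H0 ≤ H →
    ∑ n ∈ range (W + 1), 2 ^ (W - n) * na n ≤ Module.finrank ℚ (relS W k H) +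
      ∑ n ∈ range (W + 1), 2 ^ (W - n) * Module.finrank ℚ (WS n) := by
  classical
  obtain ⟨m, ii, jj, cc, hexp, -⟩ := core W 1
  set P := Ph ii jj cc with hP
  have hPinj : Function.Injective P := Ph_inj ii jj cc hexp
  set R := LinearMap.ker ((ev W).comp P) with hR
  have hrank := rank_rel P hPinj
  obtain ⟨H0, hH0, hspan⟩ := span_int R
  refine ⟨H0, 2 * W + 3, fun k hk H hH => ?_⟩
  obtain ⟨s, rfl⟩ : ∃ s, k = s + W := ⟨k - W, by omega⟩
  have hsW : W < s := by omega
  rw [← hrank]
  refine Nat.add_le_add_right ?_ _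
  have hval : ∀ (c : ↥(IF W) → ℚ) (n : ℕ) (r : List ℕ),
      ∑ i : ↥(IF W) with i.1.1.sum = n ∧ i.1.2 = r, (P c i : ℝ) * mz i.1.1 =
      ∑ j with (jj j).1.1.sum = n ∧ (jj j).1.2 = r, ((c (ii j) * cc j : ℚ) : ℝ) * mz (jj j).1.1 := by
    intro c n r
    rw [← sum_fiberwise_of_maps_to (s := univ.filter fun j => (jj j).1.1.sum = n ∧ (jj j).1.2 = r)
      (t := univ.filter fun i : ↥(IF W) => i.1.1.sum = n ∧ i.1.2 = r) (g := jj) (fun j hj => by
        rw [mem_filter] at hj ⊢
        exact ⟨mem_univ _, hj.2⟩)]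
    refine sum_congr rfl fun i hi => ?_
    rw [mem_filter] at hi
    rw [filter_filter]
    have h1 : (univ.filter fun j => ((jj j).1.1.sum = n ∧ (jj j).1.2 = r) ∧ jj j = i) =
        univ.filter fun j => jj j = i := by
      ext j
      rw [mem_filter, mem_filter]
      constructor
      · rintro ⟨g1, -, g2⟩
        exact ⟨g1, g2⟩
      · rintro ⟨g1, g2⟩
        refine ⟨g1, ?_, g2⟩
        rw [g2]
        exact hi.2
    rw [h1]
    have h2 : P c i = ∑ j with jj j = i, c (ii j) * cc j := rfl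
    rw [h2]
    push_cast
    rw [sum_mul]
    refine sum_congr rfl fun j hj => ?_
    rw [mem_filter] at hj
    rw [hj.2]
  have hmemR : ∀ c : ↥(IF W) → ℚ, c ∈ R → ∀ (n : ℕ) (r : List ℕ),
      ∑ j with (jj j).1.1.sum = n ∧ (jj j).1.2 = r, ((c (ii j) * cc j : ℚ) : ℝ) * mz (jj j).1.1 =
        0 := by
    intro c
    rw [hR, LinearMap.mem_ker]
    intro h n r
    by_cases hx : (n, r) ∈ XF W
    · have h1 := congrArg Subtype.val (congrFun h ⟨(n, r), hx⟩)
      have h2 : ∑ i : ↥(IF W) with i.1.1.sum = n ∧ i.1.2 = r, (P c) i • mz i.1.1 = 0 := h1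
      rw [← hval]
      rw [← h2]
      exact sum_congr rfl fun i _ => by rw [Rat.smul_def]
    · refine sum_eq_zero fun j hj => ?_
      rw [mem_filter] at hj
      exfalso
      apply hx
      have h1 := mem_IF.1 (jj j).2
      rw [← hj.2.1, ← hj.2.2]
      exact mem_XF.2 ⟨h1.2.1, h1.2.2⟩
  have hle2 : R.map (En W s) ≤ relS W (s + W) H := by
    refine (Submodule.map_mono hspan).trans ?_
    rw [Submodule.map_span, Submodule.span_le]
    rintro _ ⟨c, ⟨hcR, hcz⟩, rfl⟩
    refine Submodule.subset_span ⟨fun w hw => ?_, fun w => ?_, ?_⟩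
    · by_contra h0
      rw [fam_iff (by omega)] at h0
      push Not at h0
      rw [Finsupp.mem_support_iff] at hw
      exact hw (En_out c h0)
    · by_cases hw : ∃ i : ↥(IF W), w = wd W s i.1
      · obtain ⟨i, rfl⟩ := hw
        obtain ⟨z, hz1, hz2⟩ := hcz i
        exact ⟨z, by rw [En_wd hsW, hz1], hz2.trans hH⟩
      · push Not at hw
        exact ⟨0, by rw [En_out c hw, Int.cast_zero], by
          rw [Int.cast_zero, abs_zero]
          exact hH0.trans hH⟩
    · rw [En_sum]
      choose z hz1 hz2 using hcz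
      have h1 := hexp ℝ mz mz_stuffle s (by omega) z
      have hexR : ∀ u, ex mz u = mz u := by
        intro u
        by_cases h : u = []
        · rw [h, ex_nil, mz]
        · rw [ex_ne _ h]
      simp only [hexR] at h1
      have h2 : ∑ i : ↥(IF W), (c i : ℝ) * mz (wd W s i.1) =
          ∑ i : ↥(IF W), (z i : ℝ) * mz (wd W s i.1) :=
        sum_congr rfl fun i _ => by rw [hz1 i, Rat.cast_intCast]
      rw [h2, h1]
      have hcR' := hmemR c hcR
      rw [← sum_fiberwise_of_maps_to (s := univ)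
        (t := univ.image fun j => ((jj j).1.1.sum, (jj j).1.2))
        (g := fun j => ((jj j).1.1.sum, (jj j).1.2)) (fun j _ => mem_image_of_mem _ (mem_univ j))]
      refine sum_eq_zero fun x _ => ?_
      have h3 : ∑ j with ((jj j).1.1.sum, (jj j).1.2) = x, ((z (ii j) * cc j : ℤ) : ℝ) *
          (mz (jj j).1.1 * mz (gw W s (jj j).1.1.sum (jj j).1.2)) =
          (∑ j with (jj j).1.1.sum = x.1 ∧ (jj j).1.2 = x.2,
            ((c (ii j) * cc j : ℚ) : ℝ) * mz (jj j).1.1) * mz (gw W s x.1 x.2) := by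
        rw [sum_mul]
        refine sum_congr ?_ fun j hj => ?_
        · ext j
          rw [mem_filter, mem_filter, Prod.ext_iff]
        · rw [mem_filter] at hj
          rw [hj.2.1, hj.2.2, hz1]
          push_cast
          ring
      rw [h3, hcR', zero_mul]
  rw [LinearEquiv.finrank_eq (Submodule.equivMapOfInjective _ (En_inj hsW) R)]
  haveI := relS_finite W (s + W) H
  exact Submodule.finrank_mono hle2

/-- the space of relations of height at most `H` of weight `k` is too large -/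
def Over (W k : ℕ) (H : ℝ) : Prop :=
  ∑ n ∈ range (W + 1), 2 ^ (W - n) * na n < Module.finrank ℚ (relS W k H) +
    ∑ n ∈ range (W + 1), 2 ^ (W - n) * Module.finrank ℚ (WS n)

lemma over_mono (W k : ℕ) {H H' : ℝ} (h : H ≤ H') (h1 : Over W k H) : Over W k H' := by
  refine lt_of_lt_of_le h1 (Nat.add_le_add_right ?_ _)
  haveI := relS_finite W k H'
  exact Submodule.finrank_mono (relS_mono W k h)

/-- too large, for a bounded number of weights -/
theorem over_few (W κ : ℕ) : ∃ K : ℕ, ∀ C : ℝ, ∃ N0 : ℕ, ∀ N : ℕ, N0 ≤ N → ∀ B : Finset ℕ,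
    (∀ k ∈ B, (N ≤ k ∧ k ≤ κ * N) ∧ Over W k (C ^ N)) → B.card ≤ K := by
  obtain ⟨K, hK⟩ := main W κ
  refine ⟨K, fun C => ?_⟩
  obtain ⟨N0, hN0⟩ := hK (max |C| 2) (lt_of_lt_of_le one_lt_two (le_max_right _ _))
  refine ⟨N0, fun N hN B hB => hN0 N hN B fun k hk => ⟨(hB k hk).1, fun h => ?_⟩⟩
  have h1 : Over W k ((max |C| 2) ^ k) := by
    refine over_mono W k ?_ (hB k hk).2
    calc C ^ N ≤ |C ^ N| := le_abs_self _
      _ = |C| ^ N := abs_pow C N
      _ ≤ (max |C| 2) ^ N := pow_le_pow_left₀ (abs_nonneg C) (le_max_left _ _) N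
      _ ≤ (max |C| 2) ^ k := pow_le_pow_right₀ (le_trans one_le_two (le_max_right _ _)) (hB k hk).1.1
  exact absurd h (ne_of_gt h1)

end Pool.Agent.T9h55.ZD
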